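import Pool.Agent.Helper8.Kak.DefsC

/-! Module C3 of MP_013a6c_an: approximation of word-valued functions. -/

open MeasureTheory Set Topology Filter
open scoped symmDiff ENNReal ProbabilityTheory

namespace KakC

private theorem C3_level {X : Type*} [MeasurableSpace X] {t : ℕ → ℕ} {μ : Measure X}
    {T : X → X} {w : ℕ → X → ℕ × ℕ} (hT : Tower t μ T w) (k d : ℕ) (B : Set (ℕ × ℕ)) :
    ∃ B' : Set (ℕ × ℕ), w k ⁻¹' B = w (k + d) ⁻¹' B' := by
  induction d with
  | zero => exact ⟨B, rfl⟩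
  | succ d ih =>
    obtain ⟨B', hB'⟩ := ih
    refine ⟨proj (k + d) (t (k + d)) ⁻¹' B', ?_⟩
    rw [hB']
    ext x
    simp only [mem_preimage]
    rw [show k + (d + 1) = k + d + 1 from rfl, hT.proj (k + d) x]

private theorem C3_dd_le (u v : List ℕ) : dd u v ≤ u.length + v.length := by
  unfold dd
  split_ifs <;> simp

theorem approx_word {X : Type*} [MeasurableSpace X] {t : ℕ → ℕ} {μ : Measure X}
    [IsProbabilityMeasure μ] {T : X → X} {w : ℕ → X → ℕ × ℕ} (hT : Tower t μ T w)
    {G : X → List ℕ} (hG : ∀ u, MeasurableSet (G ⁻¹' {u}))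
    (hint : ∫⁻ x, ((G x).length : ℝ≥0∞) ∂μ ≠ ∞) {δ : ℝ≥0∞} (hδ : 0 < δ) :
    ∃ (m K : ℕ) (G' : ℕ × ℕ → List ℕ), (∀ ω, (G' ω).length ≤ K) ∧
      ∫⁻ x, (dd (G x) (G' (w m x)) : ℝ≥0∞) ∂μ ≤ δ := by
  classical
  -- measurability of preimages
  have hGm : ∀ s : Set (List ℕ), MeasurableSet (G ⁻¹' s) := by
    intro s
    have : G ⁻¹' s = ⋃ u ∈ s, G ⁻¹' {u} := by
      ext x; simp
    rw [this]
    exact MeasurableSet.biUnion (Set.to_countable s) (fun u _ => hG u)
  -- the tail sets
  set S : ℕ → Set X := fun n => {x | n ≤ Encodable.encode (G x)} with hS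
  have hSm : ∀ n, MeasurableSet (S n) := fun n => hGm {u | n ≤ Encodable.encode u}
  have hSanti : Antitone S := by
    intro n m hnm x hx
    exact le_trans hnm hx
  have hSempty : ⋂ n, S n = ∅ := by
    ext x
    simp only [mem_iInter, mem_empty_iff_false, iff_false, not_forall]
    exact ⟨Encodable.encode (G x) + 1, by simp [hS]⟩
  have hμS : Tendsto (fun n => μ (S n)) atTop (𝓝 0) := by
    have h := tendsto_measure_iInter_atTop (μ := μ) (s := S)
      (fun n => (hSm n).nullMeasurableSet) hSanti ⟨0, measure_ne_top μ _⟩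
    rw [hSempty, measure_empty] at h
    exact h
  have htail := tendsto_setLIntegral_zero hint hμS
  have hδ2 : 0 < δ / 2 := ENNReal.half_pos hδ.ne'
  obtain ⟨n, hn⟩ := ((htail.eventually (gt_mem_nhds hδ2))).exists
  -- the finite set of words
  have hfin : {u : List ℕ | Encodable.encode u < n}.Finite :=
    (Set.finite_Iio n).preimage (Encodable.encode_injective.injOn)
  set Fs : Finset (List ℕ) := hfin.toFinset with hFs
  have hmemFs : ∀ u, u ∈ Fs ↔ Encodable.encode u < n := by
    intro u; simp [hFs]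
  set K : ℕ := Fs.sup List.length with hK
  have hlenK : ∀ u ∈ Fs, u.length ≤ K := fun u hu => Finset.le_sup (f := List.length) hu
  set c : ℕ := (Fs.card + 1) * (2 * K + 1) with hc
  have hcpos : 0 < c := by positivity
  set δ' : ℝ≥0∞ := δ / (2 * (c : ℝ≥0∞)) with hδ'
  have hc0 : (2 * (c : ℝ≥0∞)) ≠ 0 := by
    have : (c : ℝ≥0∞) ≠ 0 := by exact_mod_cast hcpos.ne'
    exact mul_ne_zero two_ne_zero this
  have hct : (2 * (c : ℝ≥0∞)) ≠ ∞ := ENNReal.mul_ne_top (by simp) (ENNReal.natCast_ne_top c)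
  have hδ'pos : 0 < δ' := ENNReal.div_pos hδ.ne' hct
  -- approximate
  choose kf Bf hBf using fun u : List ℕ => hT.gen (G ⁻¹' {u}) (hG u) δ' hδ'pos
  set m : ℕ := Fs.sup kf with hm
  have hlev : ∀ u : List ℕ, ∃ B' : Set (ℕ × ℕ), u ∈ Fs → w (kf u) ⁻¹' (Bf u) = w m ⁻¹' B' := by
    intro u
    by_cases hu : u ∈ Fs
    · have hle : kf u ≤ m := Finset.le_sup (f := kf) hu
      obtain ⟨B', hB'⟩ := C3_level hT (kf u) (m - kf u) (Bf u)
      refine ⟨B', fun _ => ?_⟩
      rw [hB', Nat.add_sub_cancel' hle]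
    · exact ⟨∅, fun h => absurd h hu⟩
  choose E hE using hlev
  have hEμ : ∀ u ∈ Fs, μ ((G ⁻¹' {u}) ∆ (w m ⁻¹' (E u))) < δ' := by
    intro u hu
    rw [← hE u hu]; exact hBf u
  set G' : ℕ × ℕ → List ℕ := fun ω =>
    if h : ∃ u ∈ Fs, ω ∈ E u then h.choose else [] with hG'
  have hG'len : ∀ ω, (G' ω).length ≤ K := by
    intro ω
    simp only [hG']
    split_ifs with h
    · exact hlenK _ h.choose_spec.1
    · simp
  refine ⟨m, K, G', hG'len, ?_⟩
  -- the bad set
  set bad : Set X := ⋃ u ∈ Fs, (G ⁻¹' {u}) ∆ (w m ⁻¹' (E u)) with hbad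
  have hbadm : MeasurableSet bad := by
    refine Finset.measurableSet_biUnion _ (fun u _ => ?_)
    exact (hG u).symmDiff (hT.meas m (MeasurableSet.of_discrete))
  have hbadμ : μ bad ≤ Fs.card * δ' := by
    calc μ bad ≤ ∑ u ∈ Fs, μ ((G ⁻¹' {u}) ∆ (w m ⁻¹' (E u))) := measure_biUnion_finset_le _ _
      _ ≤ ∑ u ∈ Fs, δ' := Finset.sum_le_sum (fun u hu => (hEμ u hu).le)
      _ = Fs.card * δ' := by rw [Finset.sum_const, nsmul_eq_mul]
  -- pointwise estimate
  have hpt : ∀ x, (dd (G x) (G' (w m x)) : ℝ≥0∞) ≤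
      (S n).indicator (fun x => ((G x).length : ℝ≥0∞)) x +
        bad.indicator (fun _ => ((2 * K : ℕ) : ℝ≥0∞)) x := by
    intro x
    by_cases hb : x ∈ bad
    · rw [indicator_of_mem hb]
      by_cases hs : x ∈ S n
      · rw [indicator_of_mem hs]
        have h1 := C3_dd_le (G x) (G' (w m x))
        have h2 := hG'len (w m x)
        have : dd (G x) (G' (w m x)) ≤ (G x).length + 2 * K := by omega
        exact_mod_cast this
      · rw [indicator_of_notMem hs, zero_add]
        have hx : G x ∈ Fs := by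
          rw [hmemFs]; exact not_le.mp hs
        have h1 := C3_dd_le (G x) (G' (w m x))
        have h2 := hG'len (w m x)
        have h3 := hlenK _ hx
        have : dd (G x) (G' (w m x)) ≤ 2 * K := by omega
        exact_mod_cast this
    · rw [indicator_of_notMem hb, add_zero]
      have hgood : ∀ u ∈ Fs, (G x = u ↔ w m x ∈ E u) := by
        intro u hu
        have hx : x ∉ (G ⁻¹' {u}) ∆ (w m ⁻¹' (E u)) := by
          intro hx
          exact hb (mem_iUnion₂.mpr ⟨u, hu, hx⟩)
        rw [Set.mem_symmDiff] at hx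
        simp only [mem_preimage, mem_singleton_iff] at hx
        tauto
      by_cases hs : x ∈ S n
      · rw [indicator_of_mem hs]
        have hx : G x ∉ Fs := by
          rw [hmemFs]; exact not_lt.mpr hs
        have hno : ¬ ∃ u ∈ Fs, w m x ∈ E u := by
          rintro ⟨u, hu, hu2⟩
          have := (hgood u hu).mpr hu2
          exact hx (this ▸ hu)
        have : G' (w m x) = [] := by
          simp only [hG']; rw [dif_neg hno]
        rw [this]
        have h1 := C3_dd_le (G x) []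
        have : dd (G x) [] ≤ (G x).length := by simpa using h1
        exact_mod_cast this
      · have hx : G x ∈ Fs := by
          rw [hmemFs]; exact not_le.mp hs
        have hyes : ∃ u ∈ Fs, w m x ∈ E u := ⟨G x, hx, (hgood _ hx).mp rfl⟩
        have : G' (w m x) = G x := by
          simp only [hG']; rw [dif_pos hyes]
          have h1 := hyes.choose_spec
          exact ((hgood _ h1.1).mpr h1.2).symm
        rw [this]
        simp [dd]
  calc ∫⁻ x, (dd (G x) (G' (w m x)) : ℝ≥0∞) ∂μ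
      ≤ ∫⁻ x, ((S n).indicator (fun x => ((G x).length : ℝ≥0∞)) x +
          bad.indicator (fun _ => ((2 * K : ℕ) : ℝ≥0∞)) x) ∂μ := lintegral_mono hpt
    _ = ∫⁻ x, (S n).indicator (fun x => ((G x).length : ℝ≥0∞)) x ∂μ +
          ∫⁻ x, bad.indicator (fun _ => ((2 * K : ℕ) : ℝ≥0∞)) x ∂μ := by
        refine lintegral_add_right _ ?_
        exact measurable_const.indicator hbadm
    _ = ∫⁻ x in S n, ((G x).length : ℝ≥0∞) ∂μ + ((2 * K : ℕ) : ℝ≥0∞) * μ bad := by
        rw [lintegral_indicator (hSm n), lintegral_indicator hbadm, lintegral_const,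
          Measure.restrict_apply_univ]
    _ ≤ δ / 2 + δ / 2 := by
        refine add_le_add hn.le ?_
        calc ((2 * K : ℕ) : ℝ≥0∞) * μ bad ≤ ((2 * K : ℕ) : ℝ≥0∞) * (Fs.card * δ') := by gcongr
          _ = ((2 * K * Fs.card : ℕ) : ℝ≥0∞) * δ' := by push_cast; ring
          _ ≤ (c : ℝ≥0∞) * δ' := by
              gcongr
              rw [hc]; nlinarith
          _ = δ / 2 := by
              have hcne : (c : ℝ≥0∞) ≠ 0 := by exact_mod_cast hcpos.ne'
              rw [hδ', div_eq_mul_inv, div_eq_mul_inv,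
                ENNReal.mul_inv (Or.inl two_ne_zero) (Or.inl ENNReal.ofNat_ne_top)]
              calc (c : ℝ≥0∞) * (δ * (2⁻¹ * (c : ℝ≥0∞)⁻¹))
                  = δ * 2⁻¹ * ((c : ℝ≥0∞) * (c : ℝ≥0∞)⁻¹) := by ring
                _ = δ * 2⁻¹ := by
                    rw [ENNReal.mul_inv_cancel hcne (ENNReal.natCast_ne_top c), mul_one]
    _ = δ := ENNReal.add_halves δ

end KakC
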